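import Pool.Agent.Work.MP_bc729a_al.Final
import Pool.Agent.Work.MP_bc729a_al.L2.Final
import Pool.Agent.Work.MP_bc729a_al.LA.Main
import Pool.Agent.Work.MP_bc729a_al.CR.Fin2
import Pool.Agent.Work.MP_bc729a_al.CO.FinO

set_option autoImplicit false

namespace Pool.Agent.Results.MP_bc729a_al.AlternatingAndClassical

open Module

universe u v w

/-- Every maximal subgroup `M` of `G` has a complement: a subgroup `K` with `M K = G` and
`M ∩ K = 1`. -/
def MaxComplemented (G : Type u) [Group G] : Prop :=
  ∀ M : Subgroup G, IsCoatom M → ∃ K : Subgroup G, M.IsComplement' K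

/-- `s` is a composition series of `G`: a chain `1 = s 0 ≤ s 1 ≤ ... ≤ s m = G` of subgroups, each
normal in the next one with simple quotient. -/
def IsCompositionSeries {G : Type u} [Group G] {m : ℕ} (s : Fin (m + 1) → Subgroup G) : Prop :=
  s 0 = ⊥ ∧ s (Fin.last m) = ⊤ ∧ ∀ i : Fin m, s i.castSucc ≤ s i.succ ∧
    ∃ _ : ((s i.castSucc).subgroupOf (s i.succ)).Normal,
      IsSimpleGroup (↥(s i.succ) ⧸ (s i.castSucc).subgroupOf (s i.succ))

/-- `S` is isomorphic to a composition factor of `G`. -/
def IsCompositionFactor (S : Type v) [Group S] (G : Type u) [Group G] : Prop :=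
  ∃ (m : ℕ) (s : Fin (m + 1) → Subgroup G), IsCompositionSeries s ∧
    ∃ (i : Fin m) (_ : ((s i.castSucc).subgroupOf (s i.succ)).Normal),
      Nonempty ((↥(s i.succ) ⧸ (s i.castSucc).subgroupOf (s i.succ)) ≃* S)

variable {F : Type u} {V : Type v} [Field F] [AddCommGroup V] [Module F V]

/-- The symplectic group `Sp(V, B)` of a bilinear form `B`: the group of all isometries of `B`. (The
isometries form a group, so the subgroup generated by them is the set of all isometries.) -/
def Sp (B : LinearMap.BilinForm F V) : Subgroup (V ≃ₗ[F] V) :=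
  Subgroup.closure {g | ∀ u v, B (g u) (g v) = B u v}

/-- The special unitary group `SU(V, h)` of a form `h`, semilinear in the first and linear in the
second variable: the group of all isometries of `h` of determinant one. -/
def SU {σ : F →+* F} (h : V →ₛₗ[σ] V →ₗ[F] F) : Subgroup (V ≃ₗ[F] V) :=
  Subgroup.closure {g | (∀ u v, h (g u) (g v) = h u v) ∧ LinearEquiv.det g = 1}

/-- The orthogonal group `O(V, Q)` of a quadratic form `Q`: the group of all isometries of `Q`. -/
def O (Q : QuadraticForm F V) : Subgroup (V ≃ₗ[F] V) :=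
  Subgroup.closure {g | ∀ v, Q (g v) = Q v}

/-- The quotient of `D` by its centre. -/
abbrev P (D : Subgroup (V ≃ₗ[F] V)) : Type v := ↥D ⧸ Subgroup.center ↥D

/-- No alternating group `A_n`, `n ≥ 5`, is a composition factor of `G`. -/
def NoAlternating (G : Type w) [Group G] : Prop :=
  ∀ n : ℕ, 5 ≤ n → ¬ IsCompositionFactor (alternatingGroup (Fin n)) G

/-- If `L_n(q)`, `q = |F|`, `n ≥ 2`, `(n, q) ≠ (2, 2), (2, 3)`, is a composition factor of `G`,
then `(n, q)` is `(2, 7)`, `(2, 11)`, `(3, 2)` or `(5, 2)`. -/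
def LinearOnly (G : Type w) [Group G] (F : Type u) [Field F] : Prop :=
  ∀ n : ℕ, 2 ≤ n → ¬ (n = 2 ∧ Nat.card F ≤ 3) →
    IsCompositionFactor (Matrix.ProjectiveSpecialLinearGroup (Fin n) F) G →
    (n, Nat.card F) = (2, 7) ∨ (n, Nat.card F) = (2, 11) ∨ (n, Nat.card F) = (3, 2) ∨
      (n, Nat.card F) = (5, 2)

/-- If `B` is a nondegenerate alternating form on `V`, `dim V ≥ 4` and `(dim V, |F|) ≠ (4, 2)`,
then `PSp(V, B)` is not a composition factor of `G`. -/
def NoSymplectic (G : Type w) [Group G] (F : Type u) (V : Type v) [Field F] [AddCommGroup V]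
    [Module F V] : Prop :=
  ∀ B : LinearMap.BilinForm F V, B.IsAlt → B.Nondegenerate → 4 ≤ finrank F V →
    ¬ (finrank F V = 4 ∧ Nat.card F = 2) → ¬ IsCompositionFactor (P (Sp B)) G

/-- If `h` is a nondegenerate hermitian form on `V` and `dim V = 3` or `dim V ≥ 5`, then
`PSU(V, h)` is not a composition factor of `G`. -/
def NoUnitary (G : Type w) [Group G] (F : Type u) (V : Type v) [Field F] [AddCommGroup V]
    [Module F V] : Prop :=
  ∀ (σ : F →+* F) (h : V →ₛₗ[σ] V →ₗ[F] F), (∀ a, σ (σ a) = a) → (∃ a, σ a ≠ a) →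
    (∀ u v, σ (h u v) = h v u) → (∀ u, (∀ v, h u v = 0) → u = 0) →
    (finrank F V = 3 ∨ 5 ≤ finrank F V) → ¬ IsCompositionFactor (P (SU h)) G

/-- If `Q` is a quadratic form on `V` with nondegenerate polar form, and `dim V ≥ 7`, or
`dim V = 6` and `V` has no totally singular subspace of dimension `3`, then `PΩ(V, Q)`, the
quotient of the commutator subgroup of `O(V, Q)` by its centre, is not a composition factor
of `G`. -/
def NoOrthogonal (G : Type w) [Group G] (F : Type u) (V : Type v) [Field F] [AddCommGroup V]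
    [Module F V] : Prop :=
  ∀ Q : QuadraticForm F V, (∀ u, (∀ v, QuadraticMap.polar Q u v = 0) → u = 0) →
    (7 ≤ finrank F V ∨ (finrank F V = 6 ∧
      ¬ ∃ E : Submodule F V, finrank F E = 3 ∧ ∀ v ∈ E, Q v = 0)) →
    ¬ IsCompositionFactor (P ⁅O Q, O Q⁆) G

theorem factor_congr {D E : Subgroup (V ≃ₗ[F] V)} (e : D = E) {G : Type w} [Group G]
    (h : IsCompositionFactor (P D) G) : IsCompositionFactor (P E) G := by
  subst e
  exact h

/-- Let `G` be a finite group in which every maximal subgroup has a complement. Then, of the simple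
alternating groups and the simple linear, symplectic, unitary and orthogonal groups (over all
finite fields `F`, on all spaces `V` of finite dimension) of the five definitions above, only
`L_2(7)`, `L_2(11)`, `L_3(2)` and `L_5(2)` can be composition factors of `G`. -/
theorem result (G : Type w) [Group G] [Finite G] (hG : MaxComplemented G) :
    NoAlternating G ∧ ∀ (F : Type u) [Field F] [Finite F], LinearOnly G F ∧
      ∀ (V : Type v) [AddCommGroup V] [Module F V] [Finite V],
        NoSymplectic G F V ∧ NoUnitary G F V ∧ NoOrthogonal G F V := by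
  refine ⟨fun n hn h => Pool.Agent.Work.MP_bc729a_al.final G hG n hn h, ?_⟩
  intro F _ _
  refine ⟨fun n hn hF h => ?_, ?_⟩
  · simp only [Prod.mk.injEq]
    by_cases h2 : n = 2
    · subst h2
      have := Fintype.ofFinite F
      have h4 : 4 ≤ Nat.card F := by
        by_contra h5
        exact hF ⟨rfl, by omega⟩
      rw [Nat.card_eq_fintype_card] at h4 ⊢
      rcases Pool.Agent.Work.MP_bc729a_al.L2.final G hG F h4 h with h6 | h6
      · exact Or.inl ⟨rfl, h6⟩
      · exact Or.inr (Or.inl ⟨rfl, h6⟩)
    · rcases Pool.Agent.Work.MP_bc729a_al.LA.main G hG (by omega : 3 ≤ n) h with h6 | h6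
      · exact Or.inr (Or.inr (Or.inl h6))
      · exact Or.inr (Or.inr (Or.inr h6))
  · intro V _ _ _
    refine ⟨fun B hB hn hd hx h => ?_, fun σ f h2 h1 hs hn hd h => ?_, fun Q hn hd h => ?_⟩
    · have e : Sp B = Pool.Agent.Work.MP_bc729a_al.CG.SpB B :=
        le_antisymm ((Subgroup.closure_le _).2 fun g hg => hg) fun g hg => Subgroup.subset_closure hg
      exact Pool.Agent.Work.MP_bc729a_al.CG.no_sp' B hB (fun u hu => hn.1 u hu) hd hx G hG
        (factor_congr e h)
    · have e : SU f = Pool.Agent.Work.MP_bc729a_al.CG.SUh f :=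
        le_antisymm ((Subgroup.closure_le _).2 fun g hg => hg) fun g hg => Subgroup.subset_closure hg
      exact Pool.Agent.Work.MP_bc729a_al.CG.no_herm' f h2 h1 hs hn (by omega) (by omega) G hG
        (factor_congr e h)
    · have e : O Q = Pool.Agent.Work.MP_bc729a_al.CG.OQ Q :=
        le_antisymm ((Subgroup.closure_le _).2 fun g hg => hg) fun g hg => Subgroup.subset_closure hg
      replace h := factor_congr (congrArg (fun D => ⁅D, D⁆) e) h
      rcases hd with hd | ⟨hd, h3⟩
      · by_cases h8 : finrank F V = 8 ∧ ∃ E : Submodule F V, finrank F E = 4 ∧ ∀ v ∈ E, Q v = 0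
        · exact Pool.Agent.Work.MP_bc729a_al.CG.no_orth8 Q hn h8.1 h8.2 G hG h
        · exact Pool.Agent.Work.MP_bc729a_al.CG.no_orth Q hn hd h8 G hG h
      · exact Pool.Agent.Work.MP_bc729a_al.CG.no_orth6 Q hn hd h3 G hG h

end Pool.Agent.Results.MP_bc729a_al.AlternatingAndClassical
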