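import Pool.Agent.Work.MP_bc729a_al.Reduct

set_option autoImplicit false

namespace Pool.Agent.Results.MP_bc729a_al.AutFactorization

universe u v

open scoped Pointwise

/-- Every maximal subgroup `M` of `G` has a complement: a subgroup `K` with `M K = G` and
`M ∩ K = 1`. -/
def MaxComplemented (G : Type u) [Group G] : Prop :=
  ∀ M : Subgroup G, IsCoatom M → ∃ K : Subgroup G, M.IsComplement' K

/-- `s` is a composition series of `G`: a chain `1 = s 0 ≤ s 1 ≤ ... ≤ s m = G` of subgroups, each
normal in the next one with simple quotient. -/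
def IsCompositionSeries {G : Type u} [Group G] {m : ℕ} (s : Fin (m + 1) → Subgroup G) : Prop :=
  s 0 = ⊥ ∧ s (Fin.last m) = ⊤ ∧ ∀ i : Fin m, s i.castSucc ≤ s i.succ ∧
    ∃ _ : ((s i.castSucc).subgroupOf (s i.succ)).Normal,
      IsSimpleGroup (↥(s i.succ) ⧸ (s i.castSucc).subgroupOf (s i.succ))

/-- `S` is isomorphic to a composition factor of `G`. -/
def IsCompositionFactor (S : Type v) [Group S] (G : Type u) [Group G] : Prop :=
  ∃ (m : ℕ) (s : Fin (m + 1) → Subgroup G), IsCompositionSeries s ∧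
    ∃ (i : Fin m) (_ : ((s i.castSucc).subgroupOf (s i.succ)).Normal),
      Nonempty ((↥(s i.succ) ⧸ (s i.castSucc).subgroupOf (s i.succ)) ≃* S)

/-- the subgroup `D` of `S` is conjugate in `S` to `R` -/
def InClass {S : Type v} [Group S] (R D : Subgroup S) : Prop :=
  ∃ a : S, D = MulAut.conj a • R

/-- Let the nonabelian finite simple group `S` be a composition factor of a finite group in which
every maximal subgroup has a complement. Then for each proper nontrivial subgroup `H` of `S` whose
conjugacy class is invariant under `Aut S` there are a proper self-normalising subgroup `R ≥ H` of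
`S` and a subgroup `T` of `Aut S` such that the `T`-orbit of `R` is the conjugacy class of `R` in
`S`, each prime dividing `|T|` divides `|S : R|`, and for each prime `p` dividing `|S : R|` some
automorphism `α` of `S` with `α ^ p = 1` leaves the conjugacy class of `R` invariant but no member
of it. -/
theorem result (S : Type v) [Group S] [Finite S] [IsSimpleGroup S]
    (hS : ∃ x y : S, x * y ≠ y * x) (G : Type u) [Group G] [Finite G] (hG : MaxComplemented G)
    (hSG : IsCompositionFactor S G) (H : Subgroup S) (hH : H ≠ ⊤) (hH0 : H ≠ ⊥)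
    (hinv : ∀ α : MulAut S, InClass H (H.map α.toMonoidHom)) :
    ∃ (R : Subgroup S) (T : Subgroup (MulAut S)), H ≤ R ∧ R ≠ ⊤ ∧
      Subgroup.normalizer (R : Set S) = R ∧
      (∀ D : Subgroup S, (∃ t ∈ T, D = R.map t.toMonoidHom) ↔ InClass R D) ∧
      (∀ p : ℕ, p.Prime → p ∣ Nat.card T → p ∣ R.index) ∧
      (∀ p : ℕ, p.Prime → p ∣ R.index → ∃ α : MulAut S, α ^ p = 1 ∧
        ∀ D : Subgroup S, InClass R D →
          InClass R (D.map α.toMonoidHom) ∧ D.map α.toMonoidHom ≠ D) := by
  obtain ⟨R, T, h1, h2, h3, h4, h5, h6, h7⟩ :=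
    Pool.Agent.Work.MP_bc729a_al.Reduct.main hS G hG hSG H hH hH0 hinv
  refine ⟨R, T, h1, h2, h3, ?_, h6, ?_⟩
  · intro D
    constructor
    · rintro ⟨t, ht, rfl⟩
      exact h4 t ht
    · rintro ⟨a, rfl⟩
      obtain ⟨t, ht, h8⟩ := h5 a
      exact ⟨t, ht, h8.symm⟩
  · intro p hp hpR
    obtain ⟨α, hα, ⟨b, hb⟩, h8⟩ := h7 p hp hpR
    refine ⟨α, hα, ?_⟩
    rintro D ⟨a, rfl⟩
    refine ⟨⟨α a * b, ?_⟩, h8 a⟩
    rw [map_mul, mul_smul, ← hb]
    ext x
    rw [Subgroup.mem_map, Pool.Agent.Work.MP_bc729a_al.mem_conj_smul, Subgroup.mem_map]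
    constructor
    · rintro ⟨y, hy, rfl⟩
      rw [Pool.Agent.Work.MP_bc729a_al.mem_conj_smul] at hy
      refine ⟨_, hy, ?_⟩
      change α (a⁻¹ * y * a) = (α a)⁻¹ * α y * α a
      rw [map_mul, map_mul, map_inv]
    · rintro ⟨y, hy, hyx⟩
      refine ⟨a * y * a⁻¹, ?_, ?_⟩
      · rw [Pool.Agent.Work.MP_bc729a_al.mem_conj_smul]
        simpa [mul_assoc] using hy
      · have hyx' : α y = (α a)⁻¹ * x * α a := hyx
        change α (a * y * a⁻¹) = x
        rw [map_mul, map_mul, map_inv, hyx']
        group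

end Pool.Agent.Results.MP_bc729a_al.AutFactorization
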